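import Mathlib
import Pool.Agent.H16.Contract

set_option autoImplicit false

namespace Pool.Agent.Results.MP_e6c168_lc.Sublinear

open Pool.Agent.H16.Contract

/-- The maximum individual cost of an optimal fast protocol is not `Ω(N)`; for `N = m²` parties
some fast protocol makes every party pay at most `3 m`. -/
theorem result :
    (∀ m : ℕ, 1 ≤ m → ∃ P : Fin (m * m) → Equiv.Perm (Fin (m * m)),
      Fast P ∧ ∀ i, cost P i ≤ 3 * m) ∧
    ¬ ∃ c : ℝ, 0 < c ∧ ∀ N : ℕ, 2 ≤ N → ∀ P : Fin N → Equiv.Perm (Fin N), Fast P →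
      ∃ i, c * N ≤ cost P i := by
  refine ⟨fun m hm => ?_, ?_⟩
  · obtain ⟨k, rfl⟩ : ∃ k, m = k + 1 := ⟨m - 1, by omega⟩
    exact ⟨P0 k, fast k, cost_le k⟩
  · rintro ⟨c, hc, h⟩
    obtain ⟨k, hk⟩ := exists_nat_gt (3 / c)
    obtain ⟨i, hi⟩ := h ((k + 1 + 1) * (k + 1 + 1)) (by nlinarith) (P0 (k + 1)) (fast (k + 1))
    have h1 : (cost (P0 (k + 1)) i : ℝ) ≤ 3 * (k + 1 + 1) := by exact_mod_cast cost_le (k + 1) i
    rw [div_lt_iff₀ hc] at hk
    push_cast at hi
    have h2 : (0 : ℝ) < k + 1 + 1 := by positivity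
    have h3 : c * (k + 1 + 1) ≤ 3 := by
      have := hi.trans h1
      rw [← mul_assoc] at this
      exact le_of_mul_le_mul_right this h2
    nlinarith

end Pool.Agent.Results.MP_e6c168_lc.Sublinear
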